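import Pool.Agent.K3h46.MU.Slopes

/-!
# The arithmetic Kakeya conjecture with multiplicities

For a finite set `A ⊂ ℤ × ℤ` let `r_A(d)` be the number of pairs `(x, y) ∈ A` with `x - y = d`, and let
`big S A` be the largest size of a projection of `A` with slope `∞` or in the finite set `S` of slopes.
The inequality `|π₋₁(A)| ≤ big S A ^ κ` counts every difference once. We show that it is equivalent to an
inequality which takes the multiplicities `r_A(d)` into account, with the same slopes, the same exponent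
`1 ≤ κ ≤ 2` and the constant one:

`∑_{d ∈ π₋₁(A)} r_A(d) ^ (κ - 1) ≤ big S A ^ κ`.

For `κ = 2` this is the trivial bound `|A| ≤ big S A ^ 2`, and squares `[0, n)²` show that the exponent
`κ - 1` is the largest possible one. In particular the conjecture is equivalent to
`∑_d r_A(d) ^ ε ≤ big S A ^ (1 + ε)`, and to `|A| ≤ R ^ (1 - ε) big S A ^ (1 + ε)` for all sets `A` in which
no difference has more than `R` representations. The exponent `κ = 1.669587` of the starting files gives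
unconditional inequalities.

Proof. Let all the differences of `A ⊂ ℤ ^ n × ℤ ^ n` have at least `ℓ` representations, `ℓ` a prime. For a
random linear form `c` modulo `ℓ` and random residues `u`, `v` consider the part of `A` with `c(y) = u`,
`c(x) = v`. A difference survives with probability about `1 / ℓ`, as it has `ℓ` representations, and the
projections become smaller by a factor `ℓ` in the mean square. So the inequality for the parts
gains `ℓ ^ (κ - 1)`. Cartesian powers and a dyadic decomposition of the multiplicities give the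
sum and remove the constants.
-/

set_option autoImplicit false

namespace Pool.Agent.Results.MP_169869_co.Multiplicities

/-- the projection `π_r(A) = {x + r y : (x, y) ∈ A}` -/
def proj (r : ℚ) (A : Finset (ℤ × ℤ)) : Finset ℚ :=
  A.image (fun p : ℤ × ℤ => (p.1 : ℚ) + r * (p.2 : ℚ))

/-- the projection `π_∞(A) = {y : (x, y) ∈ A}` -/
def projInf (A : Finset (ℤ × ℤ)) : Finset ℚ := A.image (fun p : ℤ × ℤ => (p.2 : ℚ))

/-- the largest size of a projection of `A` with slope `∞` or in `S` -/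
def big (S : Finset ℚ) (A : Finset (ℤ × ℤ)) : ℕ :=
  max (projInf A).card (S.sup fun r => (proj r A).card)

/-- the set of the differences `x - y`, `(x, y) ∈ A` -/
def diffs (A : Finset (ℤ × ℤ)) : Finset ℤ := A.image fun p => p.1 - p.2

/-- the number `r_A(d)` of the pairs `(x, y) ∈ A` with `x - y = d` -/
def rep (A : Finset (ℤ × ℤ)) (d : ℤ) : ℕ := (A.filter fun p => p.1 - p.2 = d).card

/-- the arithmetic Kakeya conjecture in projection form -/
def Conjecture : Prop :=
  ∀ ε : ℝ, 0 < ε → ∃ S : Finset ℚ, (-1 : ℚ) ∉ S ∧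
    ∀ A : Finset (ℤ × ℤ), ((proj (-1) A).card : ℝ) ≤ (big S A : ℝ) ^ (1 + ε)

open Pool.Agent.K3h46 in
theorem mom {S : Finset ℚ} {κ : ℝ} (h1 : 1 ≤ κ) (h2 : κ ≤ 2)
    (h : ∀ A : Finset (ℤ × ℤ), ((proj (-1) A).card : ℝ) ≤ (big S A : ℝ) ^ κ)
    (A : Finset (ℤ × ℤ)) :
    ∑ d ∈ diffs A, (rep A d : ℝ) ^ (κ - 1) ≤ (big S A : ℝ) ^ κ :=
  MU.moment_slopes h1 h2 h A

theorem big_pos (S : Finset ℚ) {A : Finset (ℤ × ℤ)} (hA : A.Nonempty) : 1 ≤ big S A := by
  unfold big
  refine le_max_of_le_left ?_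
  unfold projInf
  exact Finset.card_pos.2 (hA.image _)

/-- the inequality with multiplicities implies the one without -/
theorem bound_of_mom {S : Finset ℚ} {κ θ : ℝ} (hθ : 0 ≤ θ) {A : Finset (ℤ × ℤ)}
    (h : ∑ d ∈ diffs A, (rep A d : ℝ) ^ θ ≤ (big S A : ℝ) ^ κ) :
    ((proj (-1) A).card : ℝ) ≤ (big S A : ℝ) ^ κ := by
  refine le_trans ?_ h
  have h1 : ((proj (-1) A).card : ℝ) = ∑ d ∈ diffs A, (1 : ℝ) := by
    rw [Finset.sum_const, nsmul_eq_mul, mul_one]
    have := Pool.Agent.K3h46.MU.card_neg A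
    unfold diffs proj
    unfold Pool.Agent.K3h46.MU.proj at this
    exact_mod_cast this.symm
  rw [h1]
  refine Finset.sum_le_sum fun d hd => ?_
  have : (1 : ℝ) ≤ rep A d := by exact_mod_cast Pool.Agent.K3h46.MU.rep_pos hd
  exact Real.one_le_rpow this hθ

theorem big_mono (S : Finset ℚ) {A B : Finset (ℤ × ℤ)} (h : A ⊆ B) : big S A ≤ big S B := by
  unfold big
  apply max_le_max
  · exact Finset.card_le_card (Finset.image_subset_image h)
  · apply Finset.sup_mono_fun
    intro r _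
    exact Finset.card_le_card (Finset.image_subset_image h)

theorem result :
    -- 1. every inequality holds with multiplicities
    (∀ (S : Finset ℚ) (κ : ℝ), 1 ≤ κ → κ ≤ 2 →
      (∀ A : Finset (ℤ × ℤ), ((proj (-1) A).card : ℝ) ≤ (big S A : ℝ) ^ κ) →
      ∀ A : Finset (ℤ × ℤ), ∑ d ∈ diffs A, (rep A d : ℝ) ^ (κ - 1) ≤ (big S A : ℝ) ^ κ) ∧
    -- 2. the exponent of the multiplicities is best possible
    (∀ (S : Finset ℚ) (κ θ C : ℝ), 0 ≤ κ → κ - 1 < θ → 0 ≤ θ → ∃ A : Finset (ℤ × ℤ),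
      C * (big S A : ℝ) ^ κ < ∑ d ∈ diffs A, (rep A d : ℝ) ^ θ) ∧
    -- 3. an unconditional inequality; its consequence for sets in which no difference has more than
    -- `R` representations
    (∃ S : Finset ℚ, (-1 : ℚ) ∉ S ∧ ∀ A : Finset (ℤ × ℤ),
      ∑ d ∈ diffs A, (rep A d : ℝ) ^ (0.669587 : ℝ) ≤ (big S A : ℝ) ^ (1.669587 : ℝ) ∧
      ∀ R : ℕ, (∀ d, rep A d ≤ R) →
        (A.card : ℝ) ≤ (R : ℝ) ^ (0.330413 : ℝ) * (big S A : ℝ) ^ (1.669587 : ℝ)) ∧
    -- 4. equivalent forms of the conjecture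
    (Conjecture ↔ ∀ ε : ℝ, 0 < ε → ε ≤ 1 → ∃ S : Finset ℚ, (-1 : ℚ) ∉ S ∧
      ∀ A : Finset (ℤ × ℤ), ∑ d ∈ diffs A, (rep A d : ℝ) ^ ε ≤ (big S A : ℝ) ^ (1 + ε)) ∧
    (Conjecture ↔ ∀ ε : ℝ, 0 < ε → ε ≤ 1 → ∃ S : Finset ℚ, (-1 : ℚ) ∉ S ∧
      ∀ (A : Finset (ℤ × ℤ)) (R : ℕ), (∀ d, rep A d ≤ R) →
        (A.card : ℝ) ≤ (R : ℝ) ^ (1 - ε) * (big S A : ℝ) ^ (1 + ε)) := by
  classical
  have key : Conjecture → ∀ ε : ℝ, 0 < ε → ε ≤ 1 → ∃ S : Finset ℚ, (-1 : ℚ) ∉ S ∧
      ∀ A : Finset (ℤ × ℤ), ∑ d ∈ diffs A, (rep A d : ℝ) ^ ε ≤ (big S A : ℝ) ^ (1 + ε) := by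
    intro hC ε h0 h1
    obtain ⟨S, hS, h⟩ := hC ε h0
    refine ⟨S, hS, fun A => ?_⟩
    have := mom (κ := 1 + ε) (by linarith) (by linarith) h A
    rwa [show 1 + ε - 1 = ε by ring] at this
  have card_of : ∀ (ε : ℝ) (S : Finset ℚ) (A : Finset (ℤ × ℤ)), ε ≤ 1 →
      ∑ d ∈ diffs A, (rep A d : ℝ) ^ ε ≤ (big S A : ℝ) ^ (1 + ε) → ∀ R : ℕ,
      (∀ d, rep A d ≤ R) → (A.card : ℝ) ≤ (R : ℝ) ^ (1 - ε) * (big S A : ℝ) ^ (1 + ε) := by
    intro ε S A h1 h R hR
    have := Pool.Agent.K3h46.MU.card_of_moment (κ := 1 + ε) (by linarith) hR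
      (y := (big S A : ℝ) ^ (1 + ε)) (by
        rw [show 1 + ε - 1 = ε by ring]
        exact h)
    rwa [show 2 - (1 + ε) = 1 - ε by ring] at this
  have back : ∀ {S : Finset ℚ} {ε : ℝ}, 0 < ε → ∀ A : Finset (ℤ × ℤ),
      ((proj (-1) A).card : ℝ) ≤ (big S A : ℝ) ^ (1 + min ε 1) →
      ((proj (-1) A).card : ℝ) ≤ (big S A : ℝ) ^ (1 + ε) := by
    intro S ε hε A h
    rcases A.eq_empty_or_nonempty with rfl | hA
    · simp only [proj, Finset.image_empty, Finset.card_empty, Nat.cast_zero]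
      positivity
    · refine h.trans (Real.rpow_le_rpow_of_exponent_le ?_ ?_)
      · exact_mod_cast big_pos S hA
      · linarith [min_le_left ε 1]
  refine ⟨fun S κ h1 h2 h A => mom h1 h2 h A, ?_, ?_, ⟨key, ?_⟩, ⟨?_, ?_⟩⟩
  · intro S κ θ C hκ h hθ
    exact Pool.Agent.K3h46.MU.sharp S κ θ C hθ hκ (by linarith)
  · obtain ⟨S, hS, h⟩ := Pool.Agent.K3h46.MU.sdc_bound
    refine ⟨S, hS, fun A => ?_⟩
    have h3 := mom (κ := 1.669587) (by norm_num) (by norm_num) h A
    have h4 : (1.669587 : ℝ) - 1 = 0.669587 := by norm_num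
    rw [h4] at h3
    refine ⟨h3, fun R hR => ?_⟩
    have h5 := card_of 0.669587 S A (by norm_num)
      (by rw [show (1 + 0.669587 : ℝ) = 1.669587 by norm_num]; exact h3) R hR
    rwa [show (1 - 0.669587 : ℝ) = 0.330413 by norm_num,
      show (1 + 0.669587 : ℝ) = 1.669587 by norm_num] at h5
  · intro h ε hε
    obtain ⟨S, hS, h1⟩ := h (min ε 1) (lt_min hε one_pos) (min_le_right _ _)
    exact ⟨S, hS, fun A => back hε A (bound_of_mom (lt_min hε one_pos).le (h1 A))⟩
  · intro hC ε h0 h1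
    obtain ⟨S, hS, h⟩ := key hC ε h0 h1
    exact ⟨S, hS, fun A R hR => card_of ε S A h1 (h A) R hR⟩
  · intro h ε hε
    obtain ⟨S, hS, h1⟩ := h (min ε 1) (lt_min hε one_pos) (min_le_right _ _)
    refine ⟨S, hS, fun A => back hε A ?_⟩
    -- one pair for every difference
    have hex : ∀ d ∈ diffs A, ∃ p ∈ A, p.1 - p.2 = d := fun d hd => Finset.mem_image.1 hd
    choose! f hf1 hf2 using hex
    set B : Finset (ℤ × ℤ) := (diffs A).image f with hB
    have hBA : B ⊆ A := by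
      intro p hp
      obtain ⟨d, hd, rfl⟩ := Finset.mem_image.1 hp
      exact hf1 d hd
    have hBc : B.card = (diffs A).card := by
      apply Finset.card_image_of_injOn
      intro d hd e he hde
      rw [← hf2 d hd, ← hf2 e he, hde]
    have hrep : ∀ d, rep B d ≤ 1 := by
      intro d
      unfold rep
      rw [Finset.card_le_one]
      intro p hp q hq
      rw [Finset.mem_filter] at hp hq
      obtain ⟨d1, hd1, rfl⟩ := Finset.mem_image.1 hp.1
      obtain ⟨d2, hd2, rfl⟩ := Finset.mem_image.1 hq.1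
      rw [← hf2 d1 hd1, ← hf2 d2 hd2]
      rw [hp.2, hq.2]
    have h2 := h1 B 1 hrep
    rw [Nat.cast_one, Real.one_rpow, one_mul, hBc] at h2
    have h3 : ((proj (-1) A).card : ℝ) = (diffs A).card := by
      have := Pool.Agent.K3h46.MU.card_neg A
      unfold diffs proj
      unfold Pool.Agent.K3h46.MU.proj at this
      exact_mod_cast this.symm
    rw [h3]
    refine h2.trans (Real.rpow_le_rpow (Nat.cast_nonneg _) ?_ ?_)
    · exact_mod_cast big_mono S hBA
    · have := lt_min hε one_pos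
      linarith

end Pool.Agent.Results.MP_169869_co.Multiplicities
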