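import Pool.Agent.K3h55.OP.Fin

set_option autoImplicit false

/-! # The arithmetic Kakeya conjecture for sets with one projection of short sums of S-units

Let `P` be a finite set of primes. A rational number is called short of height `H` if it is a sum
of `k` terms `c u` with `c` rational of height at most `H` and `u = ± ∏_{p ∈ P} p ^ e_p`, where the
exponents `e_p` are arbitrary integers. The theorem `MultiplicativeSets` of the starting files
treats the sets `A` for which both coordinates of all points are short. Here only one projection,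
in any direction, is restricted, for instance only the set of differences
`π_{-1}(A) = {x - y : (x, y) ∈ A}`, which is the set whose size is to be bounded; the position of
the points of `A` on the lines of this direction is arbitrary. More generally it is enough that the
difference of any two points of `A` which lie on a common line of one of the directions in
question is short.

Proof. Two points of `A` are adjacent if they have the same image under one of the projections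
`π_r`. We divide `A` into balls of radius at most `t` in this graph, such that the sum of the
numbers of all fibres which meet the pieces is at most the power with exponent `1 + 1 / t` of the
number of all fibres: the radius of a ball is chosen such that the ball meets few fibres in
comparison with the number of the fibres which meet the next smaller ball, and these are contained
in the ball. After a translation which moves the centre of the ball to the origin, the coordinates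
of the points of a piece are sums of `t` short numbers, and the inequality of the starting files
for such sets (`Pool.Agent.TH539.MQ.poly`, which rests on the `S`-adic subspace theorem) can be
applied to each piece. -/

open Finset

namespace Pool.Agent.Results.MP_169869_co.OneShortProjection

/-- the projection `π_r(A) = {x + r y : (x, y) ∈ A}` -/
def proj (r : ℚ) (A : Finset (ℤ × ℤ)) : Finset ℚ :=
  A.image (fun p : ℤ × ℤ => (p.1 : ℚ) + r * (p.2 : ℚ))

/-- the projection `π_∞(A) = {y : (x, y) ∈ A}` -/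
def projInf (A : Finset (ℤ × ℤ)) : Finset ℚ := A.image (fun p : ℤ × ℤ => (p.2 : ℚ))

/-- the largest size of a projection of `A` with slope `∞` or in `S` -/
def big (S : Finset ℚ) (A : Finset (ℤ × ℤ)) : ℕ :=
  max (projInf A).card (S.sup fun r => (proj r A).card)

/-- `u = ± ∏_{p ∈ P} p ^ e_p` with integral exponents of any sign -/
def IsSUnit (P : Finset ℕ) (u : ℚ) : Prop :=
  ∃ (σ : ℤ) (e : ℕ → ℤ), (σ = 1 ∨ σ = -1) ∧ u = σ * ∏ p ∈ P, (p : ℚ) ^ (e p)

/-- `x` is a sum of `k` terms `c u`, where `u` is as in `IsSUnit P` and the numerator and the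
denominator of `c` are at most `H` -/
def Short (P : Finset ℕ) (H : ℝ) (k : ℕ) (x : ℚ) : Prop :=
  ∃ c u : Fin k → ℚ, (∀ i, |((c i).num : ℝ)| ≤ H ∧ ((c i).den : ℝ) ≤ H ∧ IsSUnit P (u i)) ∧
    x = ∑ i, c i * u i

/-- one projection of `D` is short up to a translation: there are rational numbers `α, β`, not both
zero, with numerators and denominators at most `H`, and a rational number `τ` such that
`α x + β y - τ` is short of height `H` for all `(x, y) ∈ D` -/
def OneShort (P : Finset ℕ) (H : ℝ) (k : ℕ) (D : Finset (ℤ × ℤ)) : Prop :=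
  ∃ α β τ : ℚ, (α ≠ 0 ∨ β ≠ 0) ∧ (|(α.num : ℝ)| ≤ H ∧ (α.den : ℝ) ≤ H) ∧
    (|(β.num : ℝ)| ≤ H ∧ (β.den : ℝ) ≤ H) ∧ ∀ z ∈ D, Short P H k (α * z.1 + β * z.2 - τ)

/-- any two points of `A` on a common line of one of the directions have a short difference -/
def LocallyShort (P : Finset ℕ) (H : ℝ) (k : ℕ) (S : Finset ℚ) (A : Finset (ℤ × ℤ)) : Prop :=
  ∀ z ∈ A, ∀ z' ∈ A,
    (∀ r ∈ S, (z.1 : ℚ) + r * z.2 = z'.1 + r * z'.2 → Short P H k ((z.2 : ℚ) - z'.2)) ∧
    (z.2 = z'.2 → Short P H k ((z.1 : ℚ) - z'.1))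

lemma in_box {H : ℝ} {x : ℚ} (h1 : |(x.num : ℝ)| ≤ H) (h2 : (x.den : ℝ) ≤ H) :
    x ∈ Pool.Agent.TH539.MQ.box ⌊H⌋₊ := by
  refine Pool.Agent.TH539.MQ.mem_box ?_ ?_
  · have h3 : ((x.num.natAbs : ℕ) : ℝ) ≤ H := by
      rw [Nat.cast_natAbs]
      push_cast
      exact h1
    have h4 : x.num.natAbs ≤ ⌊H⌋₊ := Nat.le_floor h3
    have h5 : ((x.num.natAbs : ℕ) : ℝ) ≤ (⌊H⌋₊ : ℝ) := by exact_mod_cast h4
    rw [Nat.cast_natAbs] at h5
    push_cast at h5
    exact h5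
  · exact_mod_cast Nat.le_floor h2

/-- the primes of `P` in order -/
noncomputable def pr (P : Finset ℕ) : Fin P.card → ℕ := fun i => ((P.equivFin.symm i : P) : ℕ)

lemma pr_prime {P : Finset ℕ} (hP : ∀ p ∈ P, p.Prime) (v : Fin P.card) : (pr P v).Prime :=
  hP _ (P.equivFin.symm v).2

lemma pr_inj (P : Finset ℕ) : Function.Injective (pr P) :=
  Subtype.val_injective.comp P.equivFin.symm.injective

lemma toSU (P : Finset ℕ) {x : ℚ} (h : IsSUnit P x) : Pool.Agent.TH551.SU.IsSU (pr P) x := by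
  obtain ⟨σ, e, hσ, rfl⟩ := h
  refine ⟨σ, fun i => e ((P.equivFin.symm i : P) : ℕ), hσ, ?_⟩
  congr 1
  simp only [pr]
  rw [Equiv.prod_comp P.equivFin.symm (fun p : P => (((p : ℕ) : ℚ)) ^ (e p)),
    Finset.prod_coe_sort P (fun p => ((p : ℚ)) ^ (e p))]

/-- the linear forms -/
def forms (S : Finset ℚ) : Finset (ℚ × ℚ) := insert ((0 : ℚ), (1 : ℚ)) (S.image fun r => ((1 : ℚ), r))

lemma forms_indep (S : Finset ℚ) : ∀ p ∈ forms S, ∀ q ∈ forms S, p ≠ q →
    p.1 * q.2 - p.2 * q.1 ≠ 0 := by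
  intro p hp q hq hpq
  rcases Finset.mem_insert.1 hp with rfl | hp
  · rcases Finset.mem_insert.1 hq with rfl | hq
    · exact absurd rfl hpq
    · obtain ⟨r, _, rfl⟩ := Finset.mem_image.1 hq
      norm_num
  · obtain ⟨r, _, rfl⟩ := Finset.mem_image.1 hp
    rcases Finset.mem_insert.1 hq with rfl | hq
    · norm_num
    · obtain ⟨r', _, rfl⟩ := Finset.mem_image.1 hq
      intro h
      apply hpq
      simp only [one_mul, mul_one] at h
      rw [Prod.mk.injEq]
      exact ⟨rfl, by linarith⟩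

lemma forms_card (S : Finset ℚ) : (forms S).card = S.card + 1 := by
  have hnot : ((0 : ℚ), (1 : ℚ)) ∉ S.image (fun r => ((1 : ℚ), r)) := by
    intro h
    obtain ⟨r, _, hr⟩ := Finset.mem_image.1 h
    have := congrArg Prod.fst hr
    norm_num at this
  rw [forms, Finset.card_insert_of_notMem hnot,
    Finset.card_image_of_injective _ (fun a b hab => congrArg Prod.snd hab)]

/-- the embedding in the rational plane -/
def emb (z : ℤ × ℤ) : ℚ × ℚ := ((z.1 : ℚ), (z.2 : ℚ))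

lemma emb_inj : Function.Injective emb := by
  intro z z' hz
  have h1 := congrArg Prod.fst hz
  have h2 := congrArg Prod.snd hz
  simp only [emb] at h1 h2
  exact Prod.ext (by exact_mod_cast h1) (by exact_mod_cast h2)

lemma image_le (S : Finset ℚ) (A D : Finset (ℤ × ℤ)) (hD : D ⊆ A) (p : ℚ × ℚ)
    (hp : p ∈ forms S) :
    (((D.image emb).image (Pool.Agent.TH539.MQ.lf p)).card : ℝ) ≤ (big S A : ℝ) := by
  have h0 : ((D.image emb).image (Pool.Agent.TH539.MQ.lf p)).card ≤ big S A := by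
    rw [Finset.image_image]
    refine (Finset.card_le_card (Finset.image_subset_image hD)).trans ?_
    rcases Finset.mem_insert.1 hp with rfl | hp
    · refine le_trans (le_of_eq ?_) (le_max_left _ _)
      rw [projInf]
      congr 1
      refine Finset.image_congr fun z _ => ?_
      simp [Pool.Agent.TH539.MQ.lf, emb]
    · obtain ⟨r, hr, rfl⟩ := Finset.mem_image.1 hp
      refine le_trans (le_of_eq ?_) ((Finset.le_sup (f := fun r => (proj r A).card) hr).trans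
        (le_max_right _ _))
      simp only [proj]
      congr 1
      refine Finset.image_congr fun z _ => ?_
      simp [Pool.Agent.TH539.MQ.lf, emb]
  exact_mod_cast h0

lemma card_le_sq (A : Finset (ℤ × ℤ)) (S : Finset ℚ) {r : ℚ} (hr : r ∈ S) :
    A.card ≤ big S A ^ 2 := by
  classical
  have h1 : A.card ≤ ((proj r A) ×ˢ (projInf A)).card := by
    refine Finset.card_le_card_of_injOn
      (fun z : ℤ × ℤ => ((z.1 : ℚ) + r * (z.2 : ℚ), (z.2 : ℚ))) ?_ ?_
    · intro z hz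
      exact Finset.mem_coe.2 (Finset.mem_product.2 ⟨Finset.mem_image.2 ⟨z, hz, rfl⟩,
        Finset.mem_image.2 ⟨z, hz, rfl⟩⟩)
    · intro z _ z' _ h
      rw [Prod.mk.injEq] at h
      obtain ⟨h2, h3⟩ := h
      rw [h3] at h2
      have h4 : (z.1 : ℚ) = z'.1 := by linarith
      exact Prod.ext (by exact_mod_cast h4) (by exact_mod_cast h3)
  rw [Finset.card_product] at h1
  have h2 : (proj r A).card ≤ big S A :=
    (Finset.le_sup (f := fun r => (proj r A).card) hr).trans (le_max_right _ _)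
  have h3 : (projInf A).card ≤ big S A := le_max_left _ _
  calc A.card ≤ (proj r A).card * (projInf A).card := h1
    _ ≤ big S A * big S A := Nat.mul_le_mul h2 h3
    _ = big S A ^ 2 := by ring

lemma big_mono {S S' : Finset ℚ} (h : S ⊆ S') (A : Finset (ℤ × ℤ)) : big S A ≤ big S' A :=
  max_le_max le_rfl (Finset.sup_mono h)

/-- with more than `|A| ^ 2` slopes some projection is injective on `A` -/
lemma exists_inj (A : Finset (ℤ × ℤ)) (S : Finset ℚ) (h : A.card ^ 2 < S.card) :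
    A.card ≤ big S A := by
  classical
  by_contra hcon
  have h1 : ∀ r ∈ S, ∃ q : (ℤ × ℤ) × (ℤ × ℤ), q ∈ A ×ˢ A ∧ q.1 ≠ q.2 ∧
      (q.1.1 : ℚ) + r * q.1.2 = q.2.1 + r * q.2.2 := by
    intro r hr
    by_contra hno
    push Not at hno
    apply hcon
    have h2 : (proj r A).card = A.card := by
      refine Finset.card_image_of_injOn ?_
      intro z hz z' hz' hzz
      by_contra hne
      exact hno (z, z') (Finset.mem_product.2 ⟨hz, hz'⟩) hne hzz
    rw [← h2]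
    exact (Finset.le_sup (f := fun r => (proj r A).card) hr).trans (le_max_right _ _)
  choose! q hq using h1
  have h2 : S.card ≤ (A ×ˢ A).card := by
    refine Finset.card_le_card_of_injOn q (fun r hr => (hq r hr).1) ?_
    intro r hr r' hr' hrr
    obtain ⟨_, h3, h4⟩ := hq r hr
    obtain ⟨_, _, h5⟩ := hq r' hr'
    rw [← hrr] at h5
    by_cases hy : ((q r).1.2 : ℚ) = (q r).2.2
    · exfalso
      apply h3
      rw [hy] at h4
      have h6 : ((q r).1.1 : ℚ) = (q r).2.1 := by linarith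
      exact Prod.ext (by exact_mod_cast h6) (by exact_mod_cast hy)
    · have h7 : (r - r') * (((q r).1.2 : ℚ) - (q r).2.2) = 0 := by linear_combination h4 - h5
      rcases mul_eq_zero.1 h7 with h8 | h8
      · linarith
      · exact absurd (by linarith) hy
  rw [Finset.card_product] at h2
  nlinarith [h2, h]

lemma rpow_inv_le {X : ℝ} (hX : 0 ≤ X) {m : ℕ} (hm : 1 ≤ m) : X ^ (1 / (m : ℝ)) ≤ X + 1 := by
  have hm0 : (1 : ℝ) ≤ m := by exact_mod_cast hm
  have h1 : 0 ≤ 1 / (m : ℝ) := by positivity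
  have h2 : 1 / (m : ℝ) ≤ 1 := by
    rw [div_le_one (by linarith)]; exact hm0
  rcases le_total X 1 with h | h
  · exact (Real.rpow_le_one hX h h1).trans (by linarith)
  · calc X ^ (1 / (m : ℝ)) ≤ X ^ (1 : ℝ) := Real.rpow_le_rpow_of_exponent_le h h2
      _ = X := Real.rpow_one X
      _ ≤ X + 1 := by linarith

/-- the local inequality -/
theorem part1 (P : Finset ℕ) (hP : ∀ p ∈ P, p.Prime) (k : ℕ) (S : Finset ℚ) (hS : S.Nonempty)
    (ε : ℝ) (hε : 0 < ε) :
    ∃ C : ℕ, ∀ (H : ℝ) (A : Finset (ℤ × ℤ)), 1 ≤ H → LocallyShort P H k S A →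
      (A.card : ℝ) ≤ C * H ^ C * (big S A : ℝ) ^ (1 + 1 / (S.card : ℝ) + ε) := by
  classical
  have hm : 1 ≤ S.card := Finset.card_pos.2 hS
  obtain ⟨t, ht⟩ := exists_nat_gt (1 / ε)
  have ht0 : (0 : ℝ) < t := lt_trans (by positivity) ht
  have ht1 : 1 ≤ t := by exact_mod_cast ht0
  have hte : 1 / (t : ℝ) ≤ ε := by
    rw [div_le_iff₀ ht0]
    have := (div_lt_iff₀ hε).1 ht
    linarith
  obtain ⟨C, hC⟩ := Pool.Agent.K3h55.OP.local_bound (pr P) (pr_prime hP) (pr_inj P) (Fin k)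
    (forms S) (forms_indep S) S.card hm (forms_card S) t ht1
  obtain ⟨t₀, ht₀1, ht₀⟩ := Pool.Agent.TH539.MQ.exists_box (forms S)
  obtain ⟨m, hme⟩ : ∃ m, m = S.card := ⟨_, rfl⟩
  rw [← hme] at hC hm ⊢
  have hmr : (1 : ℝ) ≤ m := by exact_mod_cast hm
  refine ⟨(C * t₀ ^ C + 1) * (m + 1) ^ 2 + C, fun H A hH hA => ?_⟩
  rcases A.eq_empty_or_nonempty with rfl | hne
  · rw [Finset.card_empty, Nat.cast_zero]
    positivity
  have hfl : 1 ≤ ⌊H⌋₊ := Nat.le_floor (by exact_mod_cast hH)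
  have hBn : 1 ≤ big S A := by
    obtain ⟨r, hr⟩ := hS
    by_contra hlt
    have h0 : big S A = 0 := by omega
    have h1 := card_le_sq A S hr
    rw [h0] at h1
    have := Finset.card_pos.2 hne
    omega
  obtain ⟨B, hBe⟩ : ∃ B : ℝ, B = (big S A : ℝ) := ⟨_, rfl⟩
  have hB1 : 1 ≤ B := by rw [hBe]; exact_mod_cast hBn
  have hB0 : 0 < B := by linarith
  have h1 := hC (⌊H⌋₊ * t₀) (Nat.mul_pos hfl ht₀1) (A.image emb) (by
    intro p hp z hz z' hz' hzz
    obtain ⟨y, hy, rfl⟩ := Finset.mem_image.1 hz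
    obtain ⟨y', hy', rfl⟩ := Finset.mem_image.1 hz'
    have hbx := ht₀ p hp
    rcases Finset.mem_insert.1 hp with rfl | hp
    · have h2 : y.2 = y'.2 := by
        simp only [Pool.Agent.TH539.MQ.lf, emb, zero_mul, zero_add, one_mul] at hzz
        exact_mod_cast hzz
      obtain ⟨c, u, h3, h4⟩ := (hA y hy y' hy').2 h2
      refine ⟨u, fun i => (c i * 1, 0), fun i => ⟨toSU P (h3 i).2.2,
        Pool.Agent.TH539.MQ.box_mul (in_box (h3 i).1 (h3 i).2.1) hbx.2,
        Pool.Agent.TH539.MQ.zero_mem_box (Nat.mul_pos hfl ht₀1)⟩, ?_⟩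
      refine Prod.ext ?_ ?_
      · rw [Prod.fst_sum]
        simp only [Prod.smul_mk, smul_eq_mul, emb, Prod.fst_sub]
        rw [h4]
        exact Finset.sum_congr rfl fun i _ => by ring
      · rw [Prod.snd_sum]
        simp [emb, h2]
    · obtain ⟨r, hr, rfl⟩ := Finset.mem_image.1 hp
      have h2 : (y.1 : ℚ) + r * y.2 = y'.1 + r * y'.2 := by
        simpa only [Pool.Agent.TH539.MQ.lf, emb, one_mul] using hzz
      obtain ⟨c, u, h3, h4⟩ := (hA y hy y' hy').1 r hr h2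
      refine ⟨u, fun i => (c i * -r, c i * 1), fun i => ⟨toSU P (h3 i).2.2,
        Pool.Agent.TH539.MQ.box_mul (in_box (h3 i).1 (h3 i).2.1)
          (Pool.Agent.TH539.MQ.box_neg hbx.2),
        Pool.Agent.TH539.MQ.box_mul (in_box (h3 i).1 (h3 i).2.1) hbx.1⟩, ?_⟩
      refine Prod.ext ?_ ?_
      · rw [Prod.fst_sum]
        simp only [Prod.smul_mk, smul_eq_mul, emb, Prod.fst_sub]
        have h5 : ∑ i, u i * (c i * -r) = -r * ∑ i, c i * u i := by
          rw [Finset.mul_sum]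
          exact Finset.sum_congr rfl fun i _ => by ring
        rw [h5, ← h4]
        linear_combination h2
      · rw [Prod.snd_sum]
        simp only [Prod.smul_mk, smul_eq_mul, emb, Prod.snd_sub]
        rw [h4]
        exact Finset.sum_congr rfl fun i _ => by ring)
    B (fun p hp => hBe ▸ image_le S A A (Finset.Subset.refl _) p hp)
  rw [Finset.card_image_of_injective _ emb_inj] at h1
  have hHp : (0 : ℝ) < H := by linarith
  have hX0 : (0 : ℝ) ≤ (C : ℝ) * ((⌊H⌋₊ * t₀ : ℕ) : ℝ) ^ C := by positivity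
  have h2 : (C : ℝ) * ((⌊H⌋₊ * t₀ : ℕ) : ℝ) ^ C ≤ (C * t₀ ^ C) * H ^ C := by
    push_cast
    rw [mul_pow]
    have h3 : (⌊H⌋₊ : ℝ) ^ C ≤ H ^ C :=
      pow_le_pow_left₀ (Nat.cast_nonneg _) (Nat.floor_le (by linarith)) _
    calc (C : ℝ) * ((⌊H⌋₊ : ℝ) ^ C * (t₀ : ℝ) ^ C) ≤ (C : ℝ) * (H ^ C * (t₀ : ℝ) ^ C) := by
          gcongr
      _ = _ := by ring
  have hHC : (1 : ℝ) ≤ H ^ C := one_le_pow₀ hH
  have h3 : ((C : ℝ) * ((⌊H⌋₊ * t₀ : ℕ) : ℝ) ^ C * B) ^ (1 / (m : ℝ)) ≤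
      ((C * t₀ ^ C + 1) * H ^ C) * B ^ (1 / (m : ℝ)) := by
    rw [Real.mul_rpow hX0 hB0.le]
    refine mul_le_mul_of_nonneg_right ?_ (Real.rpow_nonneg hB0.le _)
    refine (rpow_inv_le hX0 hm).trans ?_
    calc (C : ℝ) * ((⌊H⌋₊ * t₀ : ℕ) : ℝ) ^ C + 1 ≤ (C * t₀ ^ C) * H ^ C + H ^ C := by linarith
      _ = _ := by ring
  have h4 : ((m + 1) * B) ^ (1 + 1 / (t : ℝ)) ≤ ((m : ℝ) + 1) ^ 2 * B ^ (1 + ε) := by
    rw [Real.mul_rpow (by positivity) hB0.le]
    refine mul_le_mul ?_ ?_ (Real.rpow_nonneg hB0.le _) (by positivity)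
    · have ht2 : 1 / (t : ℝ) ≤ 1 := by
        rw [div_le_one ht0]; exact_mod_cast ht1
      calc ((m : ℝ) + 1) ^ (1 + 1 / (t : ℝ)) ≤ ((m : ℝ) + 1) ^ (2 : ℝ) :=
            Real.rpow_le_rpow_of_exponent_le (by linarith) (by linarith)
        _ = _ := Real.rpow_two _
    · exact Real.rpow_le_rpow_of_exponent_le hB1 (by linarith)
  have h5 : (A.card : ℝ) ≤ (((C * t₀ ^ C + 1) * H ^ C) * B ^ (1 / (m : ℝ))) *
      (((m : ℝ) + 1) ^ 2 * B ^ (1 + ε)) := by
    refine h1.trans (mul_le_mul h3 h4 (Real.rpow_nonneg (by positivity) _) (by positivity))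
  have h6 : B ^ (1 + 1 / (m : ℝ) + ε) = B ^ (1 / (m : ℝ)) * B ^ (1 + ε) := by
    rw [← Real.rpow_add hB0]
    congr 1
    ring
  rw [← hBe, h6]
  have hq : (0 : ℝ) ≤ B ^ (1 / (m : ℝ)) * B ^ (1 + ε) := by positivity
  have hexp : C ≤ (C * t₀ ^ C + 1) * (m + 1) ^ 2 + C := Nat.le_add_left _ _
  calc (A.card : ℝ) ≤ _ := h5
    _ = ((C * t₀ ^ C + 1) * (m + 1) ^ 2 : ℝ) * H ^ C * (B ^ (1 / (m : ℝ)) * B ^ (1 + ε)) := by
        ring
    _ ≤ _ := by
        refine mul_le_mul_of_nonneg_right ?_ hq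
        refine mul_le_mul ?_ (pow_le_pow_right₀ hH hexp) (by positivity) (by positivity)
        push_cast
        linarith [(Nat.cast_nonneg C : (0 : ℝ) ≤ C)]

/-- a piece with one short projection -/
lemma piece (P : Finset ℕ) (hP : ∀ p ∈ P, p.Prime) (k m : ℕ) (hm : 1 ≤ m) (S : Finset ℚ)
    (hS : S.card = m + 1) :
    ∃ K : ℕ, ∀ (H : ℝ) (A D : Finset (ℤ × ℤ)), 1 ≤ H → D ⊆ A → D.Nonempty → OneShort P H k D →
      (D.card : ℝ) ≤ K * H ^ K * (big S A : ℝ) ^ (1 + 2 / (m : ℝ)) := by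
  classical
  obtain ⟨C, hC⟩ := Pool.Agent.K3h55.OP.local_bound_all (pr P) (pr_prime hP) (pr_inj P)
    (Fin k ⊕ Fin k) (forms S) (forms_indep S) m hm m hm
  obtain ⟨t₀, ht₀1, ht₀⟩ := Pool.Agent.TH539.MQ.exists_box (forms S)
  have hmr : (1 : ℝ) ≤ m := by exact_mod_cast hm
  refine ⟨(C * (2 * t₀ ^ 3) ^ C + 1) * (m + 1) ^ 2 + 3 * C, fun H A D hH hDA hDne hD => ?_⟩
  obtain ⟨α, β, τ, hαβ, hα, hβ, hsh⟩ := hD
  have hfl : 1 ≤ ⌊H⌋₊ := Nat.le_floor (by exact_mod_cast hH)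
  -- the forms which are not proportional to `(α, β)`
  have hone : ((forms S).filter (fun p => α * p.2 - β * p.1 = 0)).card ≤ 1 := by
    rw [Finset.card_le_one]
    intro p hp q hq
    rw [Finset.mem_filter] at hp hq
    by_contra hne
    have h1 := forms_indep S p hp.1 q hq.1 hne
    have e1 : α * (p.1 * q.2 - p.2 * q.1) = 0 := by
      linear_combination (p.1) * hq.2 - (q.1) * hp.2
    have e2 : β * (p.1 * q.2 - p.2 * q.1) = 0 := by
      linear_combination (p.2) * hq.2 - (q.2) * hp.2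
    rcases hαβ with h | h
    · exact h1 ((mul_eq_zero.1 e1).resolve_left h)
    · exact h1 ((mul_eq_zero.1 e2).resolve_left h)
  have hcard : m + 1 ≤ ((forms S).filter (fun p => ¬ (α * p.2 - β * p.1 = 0))).card := by
    have h1 := Finset.card_filter_add_card_filter_not (s := forms S)
      (fun p : ℚ × ℚ => α * p.2 - β * p.1 = 0)
    rw [forms_card, hS] at h1
    omega
  obtain ⟨T', hT'sub, hT'card⟩ := Finset.exists_subset_card_eq hcard
  have hT'S : T' ⊆ forms S := hT'sub.trans (Finset.filter_subset _ _)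
  obtain ⟨B, hBe⟩ : ∃ B : ℝ, B = (big S A : ℝ) := ⟨_, rfl⟩
  obtain ⟨h, hh⟩ : ∃ h, h = ⌊H⌋₊ := ⟨_, rfl⟩
  have hh1 : 1 ≤ h := hh ▸ hfl
  have h1 := hC T' hT'S hT'card (h * (t₀ * (2 * ((h * t₀) * (h * t₀)))))
    (Nat.mul_pos hh1 (Nat.mul_pos ht₀1 (Nat.mul_pos (by norm_num)
      (Nat.mul_pos (Nat.mul_pos hh1 ht₀1) (Nat.mul_pos hh1 ht₀1))))) (D.image emb) (by
    intro p hp z hz z' hz' hzz
    obtain ⟨y, hy, rfl⟩ := Finset.mem_image.1 hz
    obtain ⟨y', hy', rfl⟩ := Finset.mem_image.1 hz'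
    have hdet := (Finset.mem_filter.1 (hT'sub hp)).2
    obtain ⟨c, u, h3, h4⟩ := hsh y hy
    obtain ⟨c', u', h5, h6⟩ := hsh y' hy'
    refine Pool.Agent.K3h55.OP.sh_of_proj (p := p) (q := (α, β)) (τ := τ) (ht₀ p (hT'S hp))
      ⟨hh ▸ in_box hα.1 hα.2, hh ▸ in_box hβ.1 hβ.2⟩ hdet hzz
      (c := c) (u := u) (c' := c') (u' := u')
      (fun i => ⟨toSU P (h3 i).2.2, hh ▸ in_box (h3 i).1 (h3 i).2.1⟩)
      (fun i => ⟨toSU P (h5 i).2.2, hh ▸ in_box (h5 i).1 (h5 i).2.1⟩) ?_ ?_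
    · simpa only [Pool.Agent.TH539.MQ.lf, emb] using h4
    · simpa only [Pool.Agent.TH539.MQ.lf, emb] using h6)
    B (fun p hp => hBe ▸ image_le S A D hDA p (hT'S hp))
  rw [Finset.card_image_of_injective _ emb_inj] at h1
  have hB1 : 1 ≤ B := by
    obtain ⟨p, hp⟩ : T'.Nonempty := Finset.card_pos.1 (by omega)
    have h2 := image_le S A D hDA p (hT'S hp)
    have h3 : (1 : ℝ) ≤ (((D.image emb).image (Pool.Agent.TH539.MQ.lf p)).card : ℝ) := by
      exact_mod_cast Finset.card_pos.2 ((hDne.image _).image _)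
    rw [hBe]
    exact h3.trans h2
  have hB0 : 0 < B := by linarith
  have hHp : (0 : ℝ) < H := by linarith
  have hhH : (h : ℝ) ≤ H := by rw [hh]; exact Nat.floor_le (by linarith)
  obtain ⟨X, hX⟩ : ∃ X : ℝ,
      X = (C : ℝ) * ((h * (t₀ * (2 * ((h * t₀) * (h * t₀)))) : ℕ) : ℝ) ^ C := ⟨_, rfl⟩
  rw [← hX] at h1
  have hX0 : 0 ≤ X := by rw [hX]; positivity
  have h2 : X ≤ (C * (2 * t₀ ^ 3) ^ C) * H ^ (3 * C) := by
    rw [hX]
    push_cast
    have h3 : (h : ℝ) * (t₀ * (2 * ((h * t₀) * (h * t₀)))) ≤ (2 * t₀ ^ 3) * H ^ 3 := by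
      have h4 : (h : ℝ) ^ 3 ≤ H ^ 3 := pow_le_pow_left₀ (Nat.cast_nonneg _) hhH 3
      calc (h : ℝ) * (t₀ * (2 * ((h * t₀) * (h * t₀)))) = (2 * t₀ ^ 3) * (h : ℝ) ^ 3 := by ring
        _ ≤ _ := mul_le_mul_of_nonneg_left h4 (by positivity)
    calc (C : ℝ) * ((h : ℝ) * (t₀ * (2 * ((h * t₀) * (h * t₀))))) ^ C
        ≤ (C : ℝ) * ((2 * t₀ ^ 3) * H ^ 3) ^ C := by
          refine mul_le_mul_of_nonneg_left ?_ (Nat.cast_nonneg _)
          exact pow_le_pow_left₀ (by positivity) h3 _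
      _ = _ := by rw [mul_pow, ← pow_mul]; ring
  have hHC : (1 : ℝ) ≤ H ^ (3 * C) := one_le_pow₀ hH
  have h3 : (X * B) ^ (1 / (m : ℝ)) ≤ ((C * (2 * t₀ ^ 3) ^ C + 1) * H ^ (3 * C)) *
      B ^ (1 / (m : ℝ)) := by
    rw [Real.mul_rpow hX0 hB0.le]
    refine mul_le_mul_of_nonneg_right ?_ (Real.rpow_nonneg hB0.le _)
    refine (rpow_inv_le hX0 hm).trans ?_
    calc X + 1 ≤ (C * (2 * t₀ ^ 3) ^ C) * H ^ (3 * C) + H ^ (3 * C) := by linarith
      _ = _ := by ring
  have h4 : ((m + 1) * B) ^ (1 + 1 / (m : ℝ)) ≤ ((m : ℝ) + 1) ^ 2 * B ^ (1 + 1 / (m : ℝ)) := by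
    rw [Real.mul_rpow (by positivity) hB0.le]
    refine mul_le_mul_of_nonneg_right ?_ (Real.rpow_nonneg hB0.le _)
    have ht2 : 1 / (m : ℝ) ≤ 1 := by
      rw [div_le_one (by linarith)]; exact hmr
    calc ((m : ℝ) + 1) ^ (1 + 1 / (m : ℝ)) ≤ ((m : ℝ) + 1) ^ (2 : ℝ) :=
          Real.rpow_le_rpow_of_exponent_le (by linarith) (by linarith)
      _ = _ := Real.rpow_two _
  have h5 : (D.card : ℝ) ≤ (((C * (2 * t₀ ^ 3) ^ C + 1) * H ^ (3 * C)) * B ^ (1 / (m : ℝ))) *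
      (((m : ℝ) + 1) ^ 2 * B ^ (1 + 1 / (m : ℝ))) := by
    refine h1.trans (mul_le_mul h3 h4 (Real.rpow_nonneg (by positivity) _) (by positivity))
  have h6 : B ^ (1 + 2 / (m : ℝ)) = B ^ (1 / (m : ℝ)) * B ^ (1 + 1 / (m : ℝ)) := by
    rw [← Real.rpow_add hB0]
    congr 1
    ring
  rw [← hBe, h6]
  have hq : (0 : ℝ) ≤ B ^ (1 / (m : ℝ)) * B ^ (1 + 1 / (m : ℝ)) := by positivity
  have hexp : 3 * C ≤ (C * (2 * t₀ ^ 3) ^ C + 1) * (m + 1) ^ 2 + 3 * C := Nat.le_add_left _ _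
  calc (D.card : ℝ) ≤ _ := h5
    _ = ((C * (2 * t₀ ^ 3) ^ C + 1) * (m + 1) ^ 2 : ℝ) * H ^ (3 * C) *
        (B ^ (1 / (m : ℝ)) * B ^ (1 + 1 / (m : ℝ))) := by ring
    _ ≤ _ := by
        refine mul_le_mul_of_nonneg_right ?_ hq
        refine mul_le_mul ?_ (pow_le_pow_right₀ hH hexp) (by positivity) (by positivity)
        push_cast
        linarith [(Nat.cast_nonneg C : (0 : ℝ) ≤ C)]

lemma Short.mono {P : Finset ℕ} {H H' : ℝ} {k : ℕ} {x : ℚ} (h : Short P H k x) (hH : H ≤ H') :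
    Short P H' k x := by
  obtain ⟨c, u, h1, h2⟩ := h
  exact ⟨c, u, fun i => ⟨(h1 i).1.trans hH, (h1 i).2.1.trans hH, (h1 i).2.2⟩, h2⟩

lemma OneShort.mono {P : Finset ℕ} {H H' : ℝ} {k : ℕ} {D D' : Finset (ℤ × ℤ)}
    (h : OneShort P H k D) (hH : H ≤ H') (hD : D' ⊆ D) : OneShort P H' k D' := by
  obtain ⟨α, β, τ, h1, h2, h3, h4⟩ := h
  exact ⟨α, β, τ, h1, ⟨h2.1.trans hH, h2.2.trans hH⟩, ⟨h3.1.trans hH, h3.2.trans hH⟩,
    fun z hz => (h4 z (hD hz)).mono hH⟩

/-- the conjecture for sets which are covered by few sets with one short projection -/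
theorem part2 (P : Finset ℕ) (hP : ∀ p ∈ P, p.Prime) (k : ℕ) (H₀ ε : ℝ) (hε : 0 < ε) :
    ∃ (S : Finset ℚ) (δ : ℝ), (-1 : ℚ) ∉ S ∧ 0 < δ ∧ ∀ A : Finset (ℤ × ℤ),
      (∃ 𝒟 : Finset (Finset (ℤ × ℤ)), (𝒟.card : ℝ) ≤ (A.card : ℝ) ^ δ ∧
        (∀ z ∈ A, ∃ D ∈ 𝒟, z ∈ D) ∧ ∀ D ∈ 𝒟, OneShort P (H₀ * (A.card : ℝ) ^ δ) k D) →
      ((proj (-1) A).card : ℝ) ≤ A.card ∧ (A.card : ℝ) ≤ (big S A : ℝ) ^ (1 + ε) := by
  classical
  obtain ⟨m, hm⟩ := exists_nat_gt (8 / ε)
  have hm0 : (0 : ℝ) < m := lt_trans (by positivity) hm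
  have hm1 : 1 ≤ m := by exact_mod_cast hm0
  have h2m : 2 / (m : ℝ) ≤ ε / 4 := by
    rw [div_le_iff₀ hm0]
    have := (div_lt_iff₀ hε).1 hm
    linarith
  let R : ℕ → Finset ℚ := fun n => (Finset.range n).image (fun i : ℕ => (i : ℚ))
  have hRcard : ∀ n, (R n).card = n := by
    intro n
    rw [Finset.card_image_of_injective _ Nat.cast_injective, Finset.card_range]
  have hRneg : ∀ n, (-1 : ℚ) ∉ R n := by
    intro n h
    obtain ⟨i, _, hi⟩ := Finset.mem_image.1 h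
    have : (0 : ℚ) ≤ i := Nat.cast_nonneg i
    linarith
  obtain ⟨K, hK⟩ := piece P hP k m hm1 (R (m + 1)) (hRcard _)
  obtain ⟨H₁, hH₁e⟩ : ∃ H₁ : ℝ, H₁ = max 1 H₀ := ⟨_, rfl⟩
  have hH1 : 1 ≤ H₁ := hH₁e ▸ le_max_left _ _
  have hH0 : H₀ ≤ H₁ := hH₁e ▸ le_max_right _ _
  have hK1 : (0 : ℝ) < 8 * ((K : ℝ) + 1) := by positivity
  obtain ⟨δ, hδe⟩ : ∃ δ : ℝ, δ = ε / (8 * ((K : ℝ) + 1)) := ⟨_, rfl⟩
  have hδ : 0 < δ := hδe ▸ div_pos hε hK1
  have hδK : 2 * (δ * ((K : ℝ) + 1)) = ε / 4 := by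
    rw [hδe]
    field_simp
    ring
  obtain ⟨N, hN⟩ : ∃ N : ℕ, ∀ x : ℕ, N ≤ x → (K : ℝ) * H₁ ^ K ≤ (x : ℝ) ^ (ε / 2) := by
    have h1 : Filter.Tendsto (fun x : ℕ => (x : ℝ) ^ (ε / 2)) Filter.atTop Filter.atTop :=
      (tendsto_rpow_atTop (by linarith)).comp tendsto_natCast_atTop_atTop
    obtain ⟨N, hN⟩ := Filter.eventually_atTop.1 (h1.eventually_ge_atTop ((K : ℝ) * H₁ ^ K))
    exact ⟨N, hN⟩
  refine ⟨R (max (m + 1) (N ^ 4 + 1)), δ, hRneg _, hδ, fun A hA => ⟨?_, ?_⟩⟩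
  · exact_mod_cast Finset.card_image_le
  rcases A.eq_empty_or_nonempty with rfl | hne
  · rw [Finset.card_empty, Nat.cast_zero]
    exact Real.rpow_nonneg (Nat.cast_nonneg _) _
  have hcard1 : 1 ≤ A.card := Finset.card_pos.2 hne
  have hcard1r : (1 : ℝ) ≤ A.card := by exact_mod_cast hcard1
  have hsub : R (m + 1) ⊆ R (max (m + 1) (N ^ 4 + 1)) :=
    Finset.image_subset_image (Finset.range_subset_range.2 (le_max_left _ _))
  rcases Nat.lt_or_ge (N ^ 2) A.card with hbig | hsmall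
  · -- large sets
    have h0s : (0 : ℚ) ∈ R (m + 1) :=
      Finset.mem_image.2 ⟨0, Finset.mem_range.2 (by omega), by simp⟩
    have h1 := card_le_sq A (R (m + 1)) h0s
    have h2 : N ≤ big (R (m + 1)) A := by
      by_contra hlt
      push Not at hlt
      have : big (R (m + 1)) A ^ 2 ≤ N ^ 2 := Nat.pow_le_pow_left hlt.le 2
      omega
    obtain ⟨X, hXe⟩ : ∃ X, X = big (R (m + 1)) A := ⟨_, rfl⟩
    have hNX := hN X (hXe ▸ h2)
    rw [← hXe] at h1
    have hX1 : 1 ≤ X := by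
      by_contra hlt
      have : X = 0 := by omega
      rw [this] at h1
      omega
    have hXr : (1 : ℝ) ≤ X := by exact_mod_cast hX1
    have hXp : (0 : ℝ) < X := by linarith
    obtain ⟨a, hae⟩ : ∃ a : ℝ, a = (A.card : ℝ) := ⟨_, rfl⟩
    rw [← hae] at hA hcard1r ⊢
    have ha0 : (0 : ℝ) < a := by linarith
    have haX : a ≤ (X : ℝ) ^ (2 : ℝ) := by
      rw [Real.rpow_two, hae]
      exact_mod_cast h1
    have haδ : (1 : ℝ) ≤ a ^ δ := Real.one_le_rpow hcard1r hδ.le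
    have hH : 1 ≤ H₁ * a ^ δ := by nlinarith
    have hle : H₀ * a ^ δ ≤ H₁ * a ^ δ := mul_le_mul_of_nonneg_right hH0 (by linarith)
    obtain ⟨𝒟, hD1, hD2, hD3⟩ := hA
    obtain ⟨Q, hQ⟩ : ∃ Q : ℝ, Q = K * (H₁ * a ^ δ) ^ K * (X : ℝ) ^ (1 + 2 / (m : ℝ)) := ⟨_, rfl⟩
    have hQ0 : 0 ≤ Q := by rw [hQ]; positivity
    have h3 : a ≤ a ^ δ * Q := by
      have h4 : A ⊆ 𝒟.biUnion (fun D => D ∩ A) := by
        intro z hz
        obtain ⟨D, hD, hzD⟩ := hD2 z hz
        exact Finset.mem_biUnion.2 ⟨D, hD, Finset.mem_inter.2 ⟨hzD, hz⟩⟩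
      have h5 : A.card ≤ ∑ D ∈ 𝒟, (D ∩ A).card :=
        (Finset.card_le_card h4).trans Finset.card_biUnion_le
      calc a ≤ ∑ D ∈ 𝒟, ((D ∩ A).card : ℝ) := by rw [hae]; exact_mod_cast h5
        _ ≤ ∑ _D ∈ 𝒟, Q := by
            refine Finset.sum_le_sum fun D hD => ?_
            rcases (D ∩ A).eq_empty_or_nonempty with he | hDne
            · rw [he, Finset.card_empty, Nat.cast_zero]
              exact hQ0
            · rw [hQ, hXe]
              exact hK (H₁ * a ^ δ) A (D ∩ A) hH Finset.inter_subset_right hDne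
                ((hD3 D hD).mono hle Finset.inter_subset_left)
        _ = 𝒟.card * Q := by rw [Finset.sum_const, nsmul_eq_mul]
        _ ≤ a ^ δ * Q := mul_le_mul_of_nonneg_right hD1 hQ0
    have h6 : a ^ δ * Q = (K * H₁ ^ K) * (a ^ (δ * ((K : ℝ) + 1)) *
        (X : ℝ) ^ (1 + 2 / (m : ℝ))) := by
      have h7 : a ^ (δ * ((K : ℝ) + 1)) = a ^ δ * (a ^ δ) ^ K := by
        rw [mul_add, mul_one, Real.rpow_add ha0, Real.rpow_mul ha0.le, Real.rpow_natCast]
        ring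
      rw [hQ, mul_pow, h7]
      ring
    have h7 : a ^ (δ * ((K : ℝ) + 1)) ≤ (X : ℝ) ^ (ε / 4) := by
      calc a ^ (δ * ((K : ℝ) + 1)) ≤ ((X : ℝ) ^ (2 : ℝ)) ^ (δ * ((K : ℝ) + 1)) :=
            Real.rpow_le_rpow ha0.le haX (by positivity)
        _ = (X : ℝ) ^ (ε / 4) := by rw [← Real.rpow_mul hXp.le, hδK]
    have h8 : (X : ℝ) ^ (1 + 2 / (m : ℝ)) ≤ (X : ℝ) ^ (1 + ε / 4) :=
      Real.rpow_le_rpow_of_exponent_le hXr (by linarith)
    have h9 : a ≤ (X : ℝ) ^ (1 + ε) := by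
      calc a ≤ a ^ δ * Q := h3
        _ = (K * H₁ ^ K) * (a ^ (δ * ((K : ℝ) + 1)) * (X : ℝ) ^ (1 + 2 / (m : ℝ))) := h6
        _ ≤ (X : ℝ) ^ (ε / 2) * ((X : ℝ) ^ (ε / 4) * (X : ℝ) ^ (1 + ε / 4)) := by
            refine mul_le_mul hNX ?_ (by positivity) (by positivity)
            exact mul_le_mul h7 h8 (by positivity) (by positivity)
        _ = (X : ℝ) ^ (1 + ε) := by
            rw [← Real.rpow_add hXp, ← Real.rpow_add hXp]
            congr 1
            ring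
    refine h9.trans (Real.rpow_le_rpow hXp.le ?_ (by linarith))
    rw [hXe]
    exact_mod_cast big_mono hsub A
  · -- small sets
    have h1 : A.card ^ 2 < (R (max (m + 1) (N ^ 4 + 1))).card := by
      rw [hRcard]
      have h2 : A.card ^ 2 ≤ (N ^ 2) ^ 2 := Nat.pow_le_pow_left hsmall 2
      have h3 : (N ^ 2) ^ 2 = N ^ 4 := by ring
      have h4 := le_max_right (m + 1) (N ^ 4 + 1)
      omega
    have h2 := exists_inj A _ h1
    have h3 : (1 : ℝ) ≤ (big (R (max (m + 1) (N ^ 4 + 1))) A : ℝ) := by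
      exact_mod_cast hcard1.trans h2
    calc (A.card : ℝ) ≤ (big (R (max (m + 1) (N ^ 4 + 1))) A : ℝ) := by exact_mod_cast h2
      _ = (big (R (max (m + 1) (N ^ 4 + 1))) A : ℝ) ^ (1 : ℝ) := (Real.rpow_one _).symm
      _ ≤ _ := Real.rpow_le_rpow_of_exponent_le h3 (by linarith)

/-- **Theorem.** Let `P` be a finite set of primes.

(1) Let `S` be a nonempty finite set of slopes and `ε > 0`. If any two points of `A` which lie on a
common line of slope in `S` or `∞` (a fibre of `π_r`, `r ∈ S`, or of `π_∞`) have a difference which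
is short of height `H ≥ 1`, then `|A| ≤ C H ^ C M ^ (1 + 1 / |S| + ε)`, where `M` is the largest
size of the projections with slope in `S` or `∞`, and `C` depends only on `P, k, S, ε`. For every
`S` the exponent `1 + 1 / |S|` is best possible (part 3 of `MultiplicativeSets`).

(2) For all `k`, `H₀` and `ε > 0` there are a finite set `S` of slopes different from `-1` and a
`δ > 0` such that `|π_{-1}(A)| ≤ |A| ≤ M ^ (1 + ε)` for all finite `A ⊂ ℤ × ℤ` which are covered by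
at most `|A| ^ δ` sets each of which has *one* projection `α x + β y` which is short of height
`H₀ |A| ^ δ` up to a translation; the direction `(α, β)`, of height at most `H₀ |A| ^ δ`, and the
translation may be different for the different sets. For instance `(α, β) = (1, - 1)`: this is the
inequality of the conjecture for all sets `A` whose differences `x - y` are short of height
`H₀ |A| ^ δ`. -/
theorem result :
    (∀ P : Finset ℕ, (∀ p ∈ P, p.Prime) → ∀ (k : ℕ) (S : Finset ℚ), S.Nonempty →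
      ∀ ε : ℝ, 0 < ε → ∃ C : ℕ, ∀ (H : ℝ) (A : Finset (ℤ × ℤ)), 1 ≤ H →
        LocallyShort P H k S A →
        (A.card : ℝ) ≤ C * H ^ C * (big S A : ℝ) ^ (1 + 1 / (S.card : ℝ) + ε)) ∧
    (∀ P : Finset ℕ, (∀ p ∈ P, p.Prime) → ∀ (k : ℕ) (H₀ ε : ℝ), 0 < ε →
      ∃ (S : Finset ℚ) (δ : ℝ), (-1 : ℚ) ∉ S ∧ 0 < δ ∧ ∀ A : Finset (ℤ × ℤ),
        (∃ 𝒟 : Finset (Finset (ℤ × ℤ)), (𝒟.card : ℝ) ≤ (A.card : ℝ) ^ δ ∧
          (∀ z ∈ A, ∃ D ∈ 𝒟, z ∈ D) ∧ ∀ D ∈ 𝒟, OneShort P (H₀ * (A.card : ℝ) ^ δ) k D) →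
        ((proj (-1) A).card : ℝ) ≤ A.card ∧ (A.card : ℝ) ≤ (big S A : ℝ) ^ (1 + ε)) :=
  ⟨part1, part2⟩

end Pool.Agent.Results.MP_169869_co.OneShortProjection
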