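import Pool.Agent.K3h46.RB.Moment

/-!
# The arithmetic Kakeya conjecture: few exceptional slopes and partial projections

`Attained κ`: `|π₋₁(A)| ≤ big S A ^ κ` for all finite `A ⊂ ℤ × ℤ`, for some finite set `S` of slopes
`≠ -1`.  A finite set `R` of slopes `≠ -1` is of doubling `K` if the set `T` of the numbers `1 / (r + 1)`,
`r ∈ R`, satisfies `|T + T| ≤ K |T|`.  Let `1 < κ ≤ 2` be attained (`κ = 1.669587` is), `K, λ > 0`. For
all sets `R` of slopes of doubling `K` with at least `M₀(κ, K, λ)` elements: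

1. for every finite `A ⊂ ℤ × ℤ`, all but at most `λ |R|` slopes `r ∈ R` satisfy
   `∑_d r_A(d) ^ (κ - 1) ≤ |π_r(A)| ^ κ`, in particular `|π₋₁(A)| ≤ |π_r(A)| ^ κ`;
2. let sets `Y_r` with at most `N` elements be given, and let every point `(x, y)` of `A` have
   `x + r y ∈ Y_r` for at least `λ |R|` slopes `r ∈ R` (which may depend on the point). Then still
   `∑_d r_A(d) ^ (κ - 1) ≤ C N ^ κ`, with `C` depending only on `κ`, `K` and `λ`, so that
   `|π₋₁(A)| ≤ C N ^ κ`;
3. if no difference `x - y` has more than `m` representations in `A`, then the number of the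
   pairs `(r, p)`, `r ∈ R`, `p = (x, y) ∈ A`, `x + r y ∈ Y_r`, is at most
   `|R| (λ |A| + C m ^ (2 - κ) N ^ κ)`.

The arithmetic Kakeya conjecture holds if and only if 1 (for the inequality `|π₋₁(A)| ≤ |π_r(A)| ^ (1 + ε)`)
holds for all `ε`. There are sets of nonnegative integer slopes of doubling `2` of every size.

Proof: a large set of doubling `K` has a nonzero `h` such that `h, 2 h, …, l h` are in `2 T - 2 T`
(covering lemma and pigeonhole), so a fixed proportion of the progressions `z + j h`, `j ≤ l`, meets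
a given dense subset of `T` in a dense set, and Szemerédi's theorem gives progressions in it. The
inequality with multiplicities (`K3h46.MU`) is invariant under affine maps of the coordinate `1 / (r + 1)`.
-/

set_option autoImplicit false

open Finset
open scoped Pointwise

namespace Pool.Agent.Results.MP_169869_co.PartialProjections

/-- the projection `π_r(A) = {x + r y : (x, y) ∈ A}` -/
def proj (r : ℚ) (A : Finset (ℤ × ℤ)) : Finset ℚ :=
  A.image (fun p : ℤ × ℤ => (p.1 : ℚ) + r * (p.2 : ℚ))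

/-- the projection `π_∞(A) = {y : (x, y) ∈ A}` -/
def projInf (A : Finset (ℤ × ℤ)) : Finset ℚ := A.image (fun p : ℤ × ℤ => (p.2 : ℚ))

/-- the largest size of a projection of `A` with slope `∞` or in `S` -/
def big (S : Finset ℚ) (A : Finset (ℤ × ℤ)) : ℕ :=
  max (projInf A).card (S.sup fun r => (proj r A).card)

/-- the exponent `κ` is attained by some finite set of slopes -/
def Attained (κ : ℝ) : Prop :=
  ∃ S : Finset ℚ, (-1 : ℚ) ∉ S ∧ ∀ A : Finset (ℤ × ℤ), ((proj (-1) A).card : ℝ) ≤ (big S A : ℝ) ^ κ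

/-- the set of the differences `x - y`, `(x, y) ∈ A` -/
def diffs (A : Finset (ℤ × ℤ)) : Finset ℤ := A.image fun p => p.1 - p.2

/-- the number `r_A(d)` of the pairs `(x, y) ∈ A` with `x - y = d` -/
def rep (A : Finset (ℤ × ℤ)) (d : ℤ) : ℕ := (A.filter fun p => p.1 - p.2 = d).card

/-- the coordinates `1 / (r + 1)` of the slopes -/
def coord (R : Finset ℚ) : Finset ℚ := R.image fun r => 1 / (r + 1)

/-- the slope `-1` is not in `R` and the coordinates `1 / (r + 1)` have doubling at most `K` -/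
def Small (K : ℝ) (R : Finset ℚ) : Prop :=
  (-1 : ℚ) ∉ R ∧ ((coord R + coord R).card : ℝ) ≤ K * R.card

theorem ne_of_mem {R : Finset ℚ} (h : (-1 : ℚ) ∉ R) {r : ℚ} (hr : r ∈ R) : r + 1 ≠ 0 := fun h1 =>
  h (by
    have : r = -1 := by linarith
    rwa [this] at hr)

theorem inv_inj {r s : ℚ} (h : 1 / (r + 1) = 1 / (s + 1)) :
    r = s := by
  have : r + 1 = s + 1 := by
    rw [one_div, one_div] at h
    exact inv_injective h
  linarith

theorem card_coord {R : Finset ℚ} (h : (-1 : ℚ) ∉ R) : (coord R).card = R.card := by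
  unfold coord
  apply card_image_of_injOn
  intro r hr s hs hrs
  exact inv_inj hrs

theorem form_eq {r : ℚ} (hr : r + 1 ≠ 0) (p : ℤ × ℤ) :
    Pool.Agent.K3h46.RB.form (1 / (r + 1)) p = 1 / (r + 1) * ((p.1 : ℚ) + r * (p.2 : ℚ)) := by
  unfold Pool.Agent.K3h46.RB.form
  field_simp
  ring

theorem card_form {r : ℚ} (hr : r + 1 ≠ 0) (A : Finset (ℤ × ℤ)) :
    (A.image (Pool.Agent.K3h46.RB.form (1 / (r + 1)))).card = (proj r A).card := by
  have e : A.image (Pool.Agent.K3h46.RB.form (1 / (r + 1))) =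
      (proj r A).image fun x => 1 / (r + 1) * x := by
    unfold proj
    rw [image_image]
    refine image_congr fun p _ => ?_
    rw [form_eq hr]
    rfl
  rw [e, card_image_of_injective]
  exact fun x y h => mul_left_cancel₀ (one_div_ne_zero hr) h

/-- `|π₋₁(A)| ≤ ∑_d r_A(d) ^ θ` -/
theorem card_le_mom {θ : ℝ} (hθ : 0 ≤ θ) (A : Finset (ℤ × ℤ)) :
    ((proj (-1) A).card : ℝ) ≤ ∑ d ∈ diffs A, (rep A d : ℝ) ^ θ := by
  have h1 : ((proj (-1) A).card : ℝ) = ∑ d ∈ diffs A, (1 : ℝ) := by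
    rw [Finset.sum_const, nsmul_eq_mul, mul_one]
    have := Pool.Agent.K3h46.MU.card_neg A
    unfold diffs proj
    unfold Pool.Agent.K3h46.MU.proj at this
    exact_mod_cast this.symm
  rw [h1]
  refine Finset.sum_le_sum fun d hd => ?_
  have : (1 : ℝ) ≤ rep A d := by exact_mod_cast Pool.Agent.K3h46.MU.rep_pos hd
  exact Real.one_le_rpow this hθ

/-- few exceptional slopes -/
theorem exceptional {κ : ℝ} (h1 : 1 < κ) (h2 : κ ≤ 2) (hκ : Attained κ) (K lam : ℝ)
    (hlam : 0 < lam) : ∃ M₀ : ℕ, ∀ R : Finset ℚ, Small K R → M₀ ≤ R.card →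
      ∀ A : Finset (ℤ × ℤ), ((R.filter fun r => ((proj r A).card : ℝ) ^ κ <
        ∑ d ∈ diffs A, (rep A d : ℝ) ^ (κ - 1)).card : ℝ) ≤ lam * R.card := by
  obtain ⟨S, hS, hB⟩ := hκ
  obtain ⟨k, hk⟩ := Pool.Agent.K3h46.RB.ap_moment h1.le h2 hS hB
  obtain ⟨M₀, hM₀⟩ := Pool.Agent.K3h46.RB.dense_prog k (max K 1) lam (le_max_right _ _) hlam
  refine ⟨M₀, fun R hR hRM A => ?_⟩
  by_contra hcon
  push Not at hcon
  obtain ⟨H, hH⟩ : ∃ H : Finset ℚ, H = R.filter fun r => ((proj r A).card : ℝ) ^ κ <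
      ∑ d ∈ diffs A, (rep A d : ℝ) ^ (κ - 1) := ⟨_, rfl⟩
  rw [← hH] at hcon
  have hHR : H ⊆ R := by rw [hH]; exact filter_subset _ _
  have hHm : (-1 : ℚ) ∉ H := fun h => hR.1 (hHR h)
  obtain ⟨x, y, hy, hxy⟩ := hM₀ (coord R) (by rwa [card_coord hR.1]) (by
    rw [card_coord hR.1]
    refine hR.2.trans ?_
    gcongr
    exact le_max_left _ _) (coord H) (image_subset_image hHR)
    (by rw [card_coord hR.1, card_coord hHm]; exact hcon.le)
  have hcard : ∀ j : ℕ, j ≤ k → ∃ r ∈ H, (A.image (Pool.Agent.K3h46.RB.form (x + j * y))).card =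
      (proj r A).card := by
    intro j hj
    have h3 := hxy j hj
    unfold coord at h3
    obtain ⟨r, hr, hre⟩ := mem_image.1 h3
    refine ⟨r, hr, ?_⟩
    rw [← hre]
    exact card_form (ne_of_mem hHm hr) A
  obtain ⟨j, hj, hmax⟩ := Finset.exists_max_image (range (k + 1))
    (fun j : ℕ => (A.image (Pool.Agent.K3h46.RB.form (x + j * y))).card) ⟨0, by simp⟩
  have h3 := hk x y hy A _ fun i hi => hmax i (mem_range.2 (by omega))
  rw [mem_range] at hj
  obtain ⟨r, hr, hre⟩ := hcard j (by omega)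
  rw [hre] at h3
  rw [hH, mem_filter] at hr
  exact absurd hr.2 (not_lt.2 h3)

/-- partial projections -/
theorem partial_proj {κ : ℝ} (h1 : 1 < κ) (h2 : κ ≤ 2) (hκ : Attained κ) (K lam : ℝ)
    (hlam : 0 < lam) : ∃ (C : ℝ) (M₀ : ℕ), 0 < C ∧ ∀ R : Finset ℚ, Small K R → M₀ ≤ R.card →
      ∀ (N : ℕ) (Y : ℚ → Finset ℚ), (∀ r ∈ R, (Y r).card ≤ N) → ∀ A : Finset (ℤ × ℤ),
      (∀ p ∈ A, lam * R.card ≤ (R.filter fun r => (p.1 : ℚ) + r * (p.2 : ℚ) ∈ Y r).card) →
      ∑ d ∈ diffs A, (rep A d : ℝ) ^ (κ - 1) ≤ C * (N : ℝ) ^ κ := by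
  obtain ⟨S, hS, hB⟩ := hκ
  obtain ⟨C, M₀, hC, h⟩ := Pool.Agent.K3h46.RB.robust h1 h2 hS hB (max K 1) lam (le_max_right _ _)
    hlam
  refine ⟨C, M₀, hC, fun R hR hRM N Y hY A hA => ?_⟩
  refine h (coord R) (by rwa [card_coord hR.1]) (by
    rw [card_coord hR.1]
    refine le_trans hR.2 ?_
    gcongr
    exact le_max_left _ _) N (fun t => (Y (1 / t - 1)).image fun w => t * w) ?_ A ?_
  · intro t ht
    obtain ⟨r, hr, rfl⟩ := mem_image.1 ht
    have hr1 := ne_of_mem hR.1 hr
    have e : 1 / (1 / (r + 1)) - 1 = r := by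
      rw [one_div_one_div]
      ring
    refine card_image_le.trans ?_
    rw [e]
    exact hY r hr
  · intro p hp
    rw [card_coord hR.1]
    refine (hA p hp).trans ?_
    norm_cast
    apply card_le_card_of_injOn (fun r => 1 / (r + 1))
    · intro r hr
      rw [mem_coe, mem_filter] at hr
      have hr1 := ne_of_mem hR.1 hr.1
      rw [mem_coe, mem_filter]
      refine ⟨mem_image_of_mem _ hr.1, ?_⟩
      have e : 1 / (1 / (r + 1)) - 1 = r := by
        rw [one_div_one_div]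
        ring
      rw [mem_image]
      refine ⟨(p.1 : ℚ) + r * (p.2 : ℚ), ?_, (form_eq hr1 p).symm⟩
      rw [e]
      exact hr.2
    · intro r hr s hs hrs
      exact inv_inj hrs

/-- sets of nonnegative integer slopes with doubling `2` -/
theorem small_nat (M : ℕ) : ∃ W : Finset ℕ, W.card = M ∧ Small 2 (W.image fun n : ℕ => (n : ℚ)) := by
  obtain ⟨w, hw⟩ : ∃ w : ℕ → ℕ, ∀ j, w j = M.factorial / (j + 1) - 1 := ⟨_, fun _ => rfl⟩
  have hfac : (0 : ℚ) < (M.factorial : ℚ) := by exact_mod_cast M.factorial_pos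
  have hval : ∀ j < M, ((w j : ℕ) : ℚ) + 1 = (M.factorial : ℚ) / ((j + 1 : ℕ) : ℚ) := by
    intro j hj
    have hdvd : (j + 1) ∣ M.factorial := Nat.dvd_factorial (by omega) (by omega)
    have hpos : 1 ≤ M.factorial / (j + 1) :=
      Nat.div_pos (Nat.le_of_dvd M.factorial_pos hdvd) (by omega)
    rw [hw, Nat.cast_sub hpos, Nat.cast_div hdvd (Nat.cast_ne_zero.2 (by omega))]
    push_cast
    ring
  have hinv : ∀ j < M, 1 / (((w j : ℕ) : ℚ) + 1) = ((j + 1 : ℕ) : ℚ) / M.factorial := by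
    intro j hj
    rw [hval j hj, one_div_div]
  have hinj : Set.InjOn w (range M : Set ℕ) := by
    intro i hi j hj hij
    rw [mem_coe, mem_range] at hi hj
    have h1 := hinv i hi
    rw [hij, hinv j hj] at h1
    rw [div_left_inj' hfac.ne'] at h1
    have : j + 1 = i + 1 := by exact_mod_cast h1
    omega
  have hneg : (-1 : ℚ) ∉ ((range M).image w).image (fun n : ℕ => (n : ℚ)) := by
    intro h
    obtain ⟨n, -, hn⟩ := mem_image.1 h
    have : (0 : ℚ) ≤ (n : ℚ) := Nat.cast_nonneg _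
    linarith
  have hcard : ((range M).image w).card = M := by
    rw [card_image_of_injOn hinj, card_range]
  refine ⟨(range M).image w, hcard, hneg, ?_⟩
  rw [card_image_of_injective _ Nat.cast_injective, hcard]
  have hsub : coord (((range M).image w).image (fun n : ℕ => (n : ℚ))) +
      coord (((range M).image w).image (fun n : ℕ => (n : ℚ))) ⊆
      (range (2 * M)).image fun s : ℕ => ((s : ℚ) + 2) / M.factorial := by
    intro z hz
    obtain ⟨a, ha, b, hb, rfl⟩ := Finset.mem_add.1 hz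
    unfold coord at ha hb
    obtain ⟨a₁, ha₁, rfl⟩ := mem_image.1 ha
    obtain ⟨a₂, ha₂, rfl⟩ := mem_image.1 ha₁
    obtain ⟨i, hi, rfl⟩ := mem_image.1 ha₂
    obtain ⟨b₁, hb₁, rfl⟩ := mem_image.1 hb
    obtain ⟨b₂, hb₂, rfl⟩ := mem_image.1 hb₁
    obtain ⟨j, hj, rfl⟩ := mem_image.1 hb₂
    rw [mem_range] at hi hj
    refine mem_image.2 ⟨i + j, mem_range.2 (by omega), ?_⟩
    rw [hinv i hi, hinv j hj]
    push_cast
    ring
  have h1 := (card_le_card hsub).trans card_image_le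
  rw [card_range] at h1
  exact_mod_cast h1

theorem attained_sdc : Attained 1.669587 := Pool.Agent.K3h46.MU.sdc_bound

theorem result :
    -- the unconditional exponent
    Attained 1.669587 ∧
    -- every attained exponent
    (∀ κ : ℝ, 1 < κ → κ ≤ 2 → Attained κ → ∀ K lam : ℝ, 0 < lam →
      ∃ (C : ℝ) (M₀ : ℕ), ∀ R : Finset ℚ, Small K R → M₀ ≤ R.card →
        -- 1. few exceptional slopes
        (∀ A : Finset (ℤ × ℤ), ((R.filter fun r => ((proj r A).card : ℝ) ^ κ <
          ∑ d ∈ diffs A, (rep A d : ℝ) ^ (κ - 1)).card : ℝ) ≤ lam * R.card) ∧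
        (∀ A : Finset (ℤ × ℤ), ((R.filter fun r => ((proj r A).card : ℝ) ^ κ <
          (proj (-1) A).card).card : ℝ) ≤ lam * R.card) ∧
        ∀ (N : ℕ) (Y : ℚ → Finset ℚ), (∀ r ∈ R, (Y r).card ≤ N) → ∀ A : Finset (ℤ × ℤ),
          -- 2. partial projections
          ((∀ p ∈ A, lam * R.card ≤ (R.filter fun r => (p.1 : ℚ) + r * (p.2 : ℚ) ∈ Y r).card) →
            ∑ d ∈ diffs A, (rep A d : ℝ) ^ (κ - 1) ≤ C * (N : ℝ) ^ κ ∧
            ((proj (-1) A).card : ℝ) ≤ C * (N : ℝ) ^ κ) ∧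
          -- 3. incidences
          ∀ m : ℕ, (∀ d, rep A d ≤ m) →
            ∑ r ∈ R, ((A.filter fun p => (p.1 : ℚ) + r * (p.2 : ℚ) ∈ Y r).card : ℝ) ≤
              R.card * (lam * A.card + C * (m : ℝ) ^ (2 - κ) * (N : ℝ) ^ κ)) ∧
    -- 4. the conjecture is equivalent to the form with few exceptional slopes
    ((∀ ε : ℝ, 0 < ε → Attained (1 + ε)) ↔
      ∀ ε K lam : ℝ, 0 < ε → 0 < lam → ∃ M₀ : ℕ, ∀ R : Finset ℚ, Small K R → M₀ ≤ R.card →
        ∀ A : Finset (ℤ × ℤ), ((R.filter fun r => ((proj r A).card : ℝ) ^ (1 + ε) <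
          (proj (-1) A).card).card : ℝ) ≤ lam * R.card) ∧
    -- 5. there are sets of nonnegative integer slopes with doubling `2` of every size
    ∀ M : ℕ, ∃ W : Finset ℕ, W.card = M ∧ Small 2 (W.image fun n : ℕ => (n : ℚ)) := by
  have hexc2 : ∀ κ : ℝ, 1 < κ → κ ≤ 2 → ∀ κ' : ℝ, κ ≤ κ' → ∀ (R : Finset ℚ) (A : Finset (ℤ × ℤ)),
      (R.filter fun r => ((proj r A).card : ℝ) ^ κ' < (proj (-1) A).card).card ≤
      (R.filter fun r => ((proj r A).card : ℝ) ^ κ <
        ∑ d ∈ diffs A, (rep A d : ℝ) ^ (κ - 1)).card := by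
    intro κ h1 h2 κ' h3 R A
    apply card_le_card
    intro r hr
    rw [mem_filter] at hr ⊢
    refine ⟨hr.1, ?_⟩
    have hne : A.Nonempty := by
      by_contra hcon
      rw [not_nonempty_iff_eq_empty] at hcon
      have h4 := hr.2
      rw [hcon] at h4
      unfold proj at h4
      rw [image_empty, image_empty, card_empty, Nat.cast_zero,
        Real.zero_rpow (by linarith)] at h4
      exact lt_irrefl _ h4
    have h4 : (1 : ℝ) ≤ (proj r A).card := by
      have : 0 < (proj r A).card := card_pos.2 (hne.image _)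
      exact_mod_cast this
    calc ((proj r A).card : ℝ) ^ κ ≤ ((proj r A).card : ℝ) ^ κ' :=
          Real.rpow_le_rpow_of_exponent_le h4 h3
      _ < (proj (-1) A).card := hr.2
      _ ≤ _ := card_le_mom (by linarith) A
  refine ⟨attained_sdc, fun κ h1 h2 hκ K lam hlam => ?_, ⟨fun hconj ε K lam hε hlam => ?_,
    fun h ε hε => ?_⟩, small_nat⟩
  · obtain ⟨M₁, hM₁⟩ := exceptional h1 h2 hκ K lam hlam
    obtain ⟨C, M₂, hC, hM₂⟩ := partial_proj h1 h2 hκ K lam hlam
    refine ⟨C, max M₁ M₂, fun R hR hRM => ⟨fun A => hM₁ R hR ((le_max_left _ _).trans hRM) A,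
      fun A => ?_, fun N Y hY A => ?_⟩⟩
    · refine le_trans ?_ (hM₁ R hR ((le_max_left _ _).trans hRM) A)
      exact_mod_cast hexc2 κ h1 h2 κ le_rfl R A
    · have key := hM₂ R hR ((le_max_right _ _).trans hRM) N Y hY
      refine ⟨fun hA => ⟨key A hA, (card_le_mom (by linarith) A).trans (key A hA)⟩,
        fun m hm => ?_⟩
      obtain ⟨A', hA'⟩ : ∃ A' : Finset (ℤ × ℤ), A' = A.filter fun p =>
          lam * R.card ≤ (R.filter fun r => (p.1 : ℚ) + r * (p.2 : ℚ) ∈ Y r).card := ⟨_, rfl⟩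
      have hA'c : (A'.card : ℝ) ≤ (m : ℝ) ^ (2 - κ) * (C * (N : ℝ) ^ κ) := by
        refine Pool.Agent.K3h46.MU.card_of_moment h2 (fun d => ?_) (key A' fun p hp => ?_)
        · refine le_trans ?_ (hm d)
          unfold Pool.Agent.K3h46.MU.rep rep
          rw [hA']
          exact card_le_card (filter_subset_filter _ (filter_subset _ _))
        · rw [hA', mem_filter] at hp
          exact hp.2
      have hdc := Finset.sum_card_bipartiteAbove_eq_sum_card_bipartiteBelow
        (fun (r : ℚ) (p : ℤ × ℤ) => (p.1 : ℚ) + r * (p.2 : ℚ) ∈ Y r) (s := R) (t := A)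
      have hdc' : ∑ r ∈ R, ((A.filter fun p => (p.1 : ℚ) + r * (p.2 : ℚ) ∈ Y r).card : ℝ) =
          ∑ p ∈ A, ((R.filter fun r => (p.1 : ℚ) + r * (p.2 : ℚ) ∈ Y r).card : ℝ) := by
        exact_mod_cast hdc
      rw [hdc', ← sum_filter_add_sum_filter_not A (fun p => lam * (R.card : ℝ) ≤
        (R.filter fun r => (p.1 : ℚ) + r * (p.2 : ℚ) ∈ Y r).card), ← hA']
      have e1 : ∑ p ∈ A', ((R.filter fun r => (p.1 : ℚ) + r * (p.2 : ℚ) ∈ Y r).card : ℝ) ≤
          A'.card * R.card := by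
        calc _ ≤ ∑ _p ∈ A', (R.card : ℝ) := by
              refine sum_le_sum fun p _ => ?_
              exact_mod_cast card_le_card (filter_subset _ _)
          _ = _ := by rw [sum_const, nsmul_eq_mul]
      have e2 : ∑ p ∈ A.filter (fun p => ¬ lam * (R.card : ℝ) ≤
          (R.filter fun r => (p.1 : ℚ) + r * (p.2 : ℚ) ∈ Y r).card),
          ((R.filter fun r => (p.1 : ℚ) + r * (p.2 : ℚ) ∈ Y r).card : ℝ) ≤
          A.card * (lam * R.card) := by
        calc _ ≤ ∑ _p ∈ A.filter (fun p => ¬ lam * (R.card : ℝ) ≤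
              (R.filter fun r => (p.1 : ℚ) + r * (p.2 : ℚ) ∈ Y r).card), (lam * (R.card : ℝ)) :=
              sum_le_sum fun p hp => (not_le.1 (mem_filter.1 hp).2).le
          _ ≤ A.card * (lam * R.card) := by
              rw [sum_const, nsmul_eq_mul]
              gcongr
              exact filter_subset _ _
      have e3 : (A'.card : ℝ) * R.card ≤ (m : ℝ) ^ (2 - κ) * (C * (N : ℝ) ^ κ) * R.card := by
        gcongr
      calc _ ≤ (A'.card : ℝ) * R.card + A.card * (lam * R.card) := add_le_add e1 e2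
        _ ≤ (m : ℝ) ^ (2 - κ) * (C * (N : ℝ) ^ κ) * R.card + A.card * (lam * R.card) := by
            linarith
        _ = _ := by ring
  · have h1 : (1 : ℝ) < 1 + min ε 1 := by
      have : 0 < min ε 1 := lt_min hε one_pos
      linarith
    have h2 : 1 + min ε 1 ≤ 2 := by
      have := min_le_right ε 1
      linarith
    obtain ⟨M₀, hM₀⟩ := exceptional h1 h2 (hconj _ (lt_min hε one_pos)) K lam hlam
    refine ⟨M₀, fun R hR hRM A => le_trans ?_ (hM₀ R hR hRM A)⟩
    have h3 := hexc2 (1 + min ε 1) h1 h2 (1 + ε) (by have := min_le_left ε 1; linarith) R A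
    exact_mod_cast h3
  · obtain ⟨M₀, hM₀⟩ := h ε 2 (1 / 2) hε (by norm_num)
    obtain ⟨W, hW, hWs⟩ := small_nat (M₀ + 1)
    have hWc : (W.image fun n : ℕ => (n : ℚ)).card = M₀ + 1 := by
      rw [card_image_of_injective _ Nat.cast_injective, hW]
    refine ⟨W.image fun n : ℕ => (n : ℚ), hWs.1, fun A => ?_⟩
    have h3 := hM₀ _ hWs (by rw [hWc]; omega) A
    by_contra hcon
    push Not at hcon
    have h4 : (W.image fun n : ℕ => (n : ℚ)).filter (fun r => ((proj r A).card : ℝ) ^ (1 + ε) <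
        (proj (-1) A).card) = W.image fun n : ℕ => (n : ℚ) := by
      apply filter_true_of_mem
      intro r hr
      refine lt_of_le_of_lt ?_ hcon
      apply Real.rpow_le_rpow (Nat.cast_nonneg _) _ (by linarith)
      have : (proj r A).card ≤ big (W.image fun n : ℕ => (n : ℚ)) A :=
        le_max_of_le_right (le_sup (f := fun r => (proj r A).card) hr)
      exact_mod_cast this
    rw [h4, hWc] at h3
    push_cast at h3
    have : (0 : ℝ) ≤ M₀ := Nat.cast_nonneg _
    linarith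

end Pool.Agent.Results.MP_169869_co.PartialProjections
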