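import Pool.Agent.K3h57.Card
import Pool.Agent.K3h57.Cert3

/-!
# Sums-differences for the slopes `0, 1, ∞` with exponent `82 / 45`

For every finite `A ⊂ ℤ × ℤ` the difference projection is bounded by
`(|π_0| |π_∞|) ^ (119 / 180) * |π_1| ^ (1 / 2)`, hence by `max (|π_0|, |π_1|, |π_∞|) ^ (82 / 45)`.
-/

set_option autoImplicit false

namespace Pool.Agent.Results.MP_169869_co.ThreeSlopes
open Pool.Agent.K3h57

/-- The projection in direction `r`: the set of the values `x + r y`. -/
def proj (r : ℚ) (A : Finset (ℤ × ℤ)) : Finset ℚ :=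
  A.image (fun z : ℤ × ℤ => (z.1 : ℚ) + r * (z.2 : ℚ))

/-- The projection in direction `∞`: the set of the values `y`. -/
def projInf (A : Finset (ℤ × ℤ)) : Finset ℚ := A.image (fun z : ℤ × ℤ => (z.2 : ℚ))

lemma card_cast {A : Finset (ℤ × ℤ)} {f : ℤ × ℤ → ℤ} {g : ℤ × ℤ → ℚ}
    (h : ∀ z, g z = (f z : ℚ)) : (A.image g).card = (A.image f).card := by
  have : A.image g = (A.image f).image (fun z : ℤ => (z : ℚ)) := by
    rw [Finset.image_image]
    exact Finset.image_congr fun z _ => h z
  rw [this, Finset.card_image_of_injective _ Int.cast_injective]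

theorem result (A : Finset (ℤ × ℤ)) :
    ((proj (-1) A).card : ℝ) ≤
        (((proj 0 A).card : ℝ) * ((projInf A).card : ℝ)) ^ (119 / 180 : ℝ) *
          ((proj 1 A).card : ℝ) ^ (1 / 2 : ℝ) ∧
      ((proj (-1) A).card : ℝ) ≤
        (max (max ((proj 0 A).card : ℝ) ((proj 1 A).card : ℝ)) ((projInf A).card : ℝ)) ^
          (82 / 45 : ℝ) := by
  have c0 : (proj (-1) A).card = (A.image (fun z => z.1 - z.2)).card :=
    card_cast fun z => by push_cast; ring
  have c1 : (proj 0 A).card = (A.image (fun z => z.1)).card := card_cast fun z => by ring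
  have c2 : (projInf A).card = (A.image (fun z => z.2)).card := card_cast fun z => rfl
  have c3 : (proj 1 A).card = (A.image (fun z => z.1 + z.2)).card :=
    card_cast fun z => by push_cast; ring
  rcases A.eq_empty_or_nonempty with hA | hA
  · subst hA
    have h0 : ((proj (-1) (∅ : Finset (ℤ × ℤ))).card : ℝ) = 0 := by simp [proj]
    rw [h0]
    constructor <;> positivity
  have h : ∀ B : Base, SS B .line [[1], [0, 1]] ≤
      (119 / 90 : ℝ) * SS B .line [[1]] + (1 / 2 : ℝ) * SS B .line [[2, 1]] := by
    intro B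
    have := Cert3.final B
    simp only [Cert3.v1, Cert3.v3, Cert3.v4] at this
    linarith
  have key := card_bound (119 / 90) (1 / 2) (by norm_num) (by norm_num) h A hA
  rw [← c0, ← c1, ← c2, ← c3] at key
  norm_num at key
  refine ⟨by norm_num; exact key, ?_⟩
  have hpos : 0 < (proj 0 A).card := by rw [c1]; exact Finset.card_pos.2 (hA.image _)
  have hM : (0 : ℝ) < max (max ((proj 0 A).card : ℝ) ((proj 1 A).card : ℝ))
      ((projInf A).card : ℝ) := by
    refine lt_max_of_lt_left (lt_max_of_lt_left ?_)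
    exact_mod_cast hpos
  have := card_max (α := 119 / 90) (γ := 1 / 2) (by norm_num) (by norm_num)
    (e := ((proj (-1) A).card : ℝ)) (Nat.cast_nonneg _) (Nat.cast_nonneg _) (Nat.cast_nonneg _) hM
    (le_max_of_le_left (le_max_left _ _)) (le_max_right _ _)
    (le_max_of_le_left (le_max_right _ _)) (by norm_num; exact key)
  norm_num at this ⊢
  exact this

end Pool.Agent.Results.MP_169869_co.ThreeSlopes
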